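import Pool.Agent.helper75.PSA.Spec

/-!
# Project psa (MP_2b41e9_nt), row NE: a point with all middle coefficients 1/2
-/

set_option autoImplicit false

open Polynomial Finset

noncomputable section

namespace Pool.Agent.PSA

/-- the lower part -/
def NE_L (k : ℕ) : ℝ[X] := C (1 / 2) * ∑ i ∈ Finset.Ico 1 (2 * k), X ^ i + 1

theorem NE_coeff (k j : ℕ) : (NE_L k).coeff j = (if j ∈ Finset.Ico 1 (2 * k) then 1 / 2 else 0) +
    (if j = 0 then 1 else 0) := by
  unfold NE_L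
  rw [coeff_add, coeff_C_mul, finsetSum_coeff]
  simp only [coeff_X_pow]
  rw [Finset.sum_ite_eq, coeff_one]
  split_ifs <;> ring

theorem NE_deg (k : ℕ) (hk : 1 ≤ k) : (NE_L k).degree < ((2 * k : ℕ) : WithBot ℕ) := by
  rw [degree_lt_iff_coeff_zero]
  intro m hm
  rw [NE_coeff, if_neg, if_neg, add_zero]
  · omega
  · rw [Finset.mem_Ico]
    omega

theorem NE_norm (z : ℂ) : ‖z - 1 / 2‖ ^ 2 - ‖1 - z / 2‖ ^ 2 = 3 / 4 * (‖z‖ ^ 2 - 1) := by
  rw [Complex.sq_norm, Complex.sq_norm, Complex.sq_norm, Complex.normSq_apply, Complex.normSq_apply,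
    Complex.normSq_apply]
  have h1 : (z - 1 / 2).re = z.re - 1 / 2 := by
    simp
  have h2 : (z - 1 / 2).im = z.im := by
    simp
  have h3 : (1 - z / 2).re = 1 - z.re / 2 := by
    simp
  have h4 : (1 - z / 2).im = - (z.im / 2) := by
    simp
  rw [h1, h2, h3, h4]
  ring

theorem NE_root (k : ℕ) (hk : 1 ≤ k) (z : ℂ) (h : aeval z (X ^ (2 * k) + NE_L k) = 0) :
    ‖z‖ = 1 ∧ z.im ≠ 0 := by
  have h1 : z ^ (2 * k) + (1 / 2 * ∑ i ∈ Finset.Ico 1 (2 * k), z ^ i + 1) = 0 := by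
    unfold NE_L at h
    simpa using h
  have h2 : (∑ i ∈ Finset.Ico 1 (2 * k), z ^ i) * (z - 1) = z ^ (2 * k) - z ^ 1 :=
    geom_sum_Ico_mul z (by omega)
  have h3 : z ^ (2 * k) * (z - 1 / 2) = 1 - z / 2 := by
    linear_combination (z - 1) * h1 - 1 / 2 * h2
  have h4 : ‖z‖ ^ (2 * k) * ‖z - 1 / 2‖ = ‖1 - z / 2‖ := by
    rw [← norm_pow, ← norm_mul, h3]
  have h5 := NE_norm z
  have n0 := norm_nonneg z
  have n1 := norm_nonneg (z - 1 / 2)
  have n2 := norm_nonneg (1 - z / 2)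
  have hn : ‖z‖ = 1 := by
    rcases lt_trichotomy ‖z‖ 1 with hlt | heq | hgt
    · exfalso
      have e1 : ‖z‖ ^ (2 * k) ≤ 1 := pow_le_one₀ n0 hlt.le
      have e2 : ‖z‖ ^ 2 < 1 := by nlinarith
      have e3 : ‖z - 1 / 2‖ < ‖1 - z / 2‖ := by
        by_contra hc
        push Not at hc
        nlinarith
      have e4 : ‖z‖ ^ (2 * k) * ‖z - 1 / 2‖ ≤ 1 * ‖z - 1 / 2‖ := mul_le_mul_of_nonneg_right e1 n1
      linarith
    · exact heq
    · exfalso
      have e1 : 1 ≤ ‖z‖ ^ (2 * k) := one_le_pow₀ hgt.le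
      have e2 : 1 < ‖z‖ ^ 2 := by nlinarith
      have e3 : ‖1 - z / 2‖ < ‖z - 1 / 2‖ := by
        by_contra hc
        push Not at hc
        nlinarith
      have e4 : 1 * ‖z - 1 / 2‖ ≤ ‖z‖ ^ (2 * k) * ‖z - 1 / 2‖ := mul_le_mul_of_nonneg_right e1 n1
      linarith
  refine ⟨hn, ?_⟩
  intro him
  have h6 : z.re ^ 2 = 1 := by
    have h7 : ‖z‖ ^ 2 = z.re * z.re + z.im * z.im := by
      rw [Complex.sq_norm, Complex.normSq_apply]
    rw [hn, him] at h7
    linarith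
  rcases sq_eq_one_iff.1 h6 with h8 | h8
  · have hz : z = 1 := Complex.ext h8 him
    rw [hz] at h1
    simp only [one_pow, Finset.sum_const, Nat.card_Ico, nsmul_eq_mul, mul_one] at h1
    have h9 := congrArg Complex.re h1
    simp at h9
    have h10 : (0 : ℝ) ≤ ((2 * k - 1 : ℕ) : ℝ) := Nat.cast_nonneg _
    linarith
  · have hz : z = -1 := Complex.ext (by simpa using h8) (by simpa using him)
    rw [hz] at h3
    have h9 : (-1 : ℂ) ^ (2 * k) = 1 := Even.neg_one_pow ⟨k, by ring⟩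
    rw [h9] at h3
    have h10 := congrArg Complex.re h3
    simp at h10
    norm_num at h10

/-- row NE -/
theorem NE (hFAC : FAC_stmt) : NE_stmt := by
  intro k hk
  have hd := NE_deg k hk
  have hM : (X ^ (2 * k) + NE_L k).Monic := monic_X_pow_add hd
  have hN : (X ^ (2 * k) + NE_L k).natDegree = 2 * k := by
    apply natDegree_eq_of_degree_eq_some
    rw [degree_add_eq_left_of_degree_lt]
    · exact degree_X_pow _
    · rw [degree_X_pow]
      exact hd
  obtain ⟨w, hw⟩ := hFAC k _ hM hN (fun z hz => NE_root k hk z hz)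
  refine ⟨w, ?_⟩
  intro i hi0 hi
  rw [← hw, coeff_add, coeff_X_pow, NE_coeff, if_neg (by omega), if_pos (Finset.mem_Ico.2 ⟨hi0, hi⟩),
    if_neg (by omega)]
  norm_num

end Pool.Agent.PSA
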